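import Mathlib

namespace Pool.Agent.Results.MP_737f38_pr.NotTwo

open Set Finset

/-- Mass at `k` of a sum of independent Bernoulli variables with parameters `p i`. -/
noncomputable def mass {m : ℕ} (p : Fin m → ℝ) (k : ℕ) : ℝ :=
  ∑ S ∈ (Finset.univ : Finset (Finset (Fin m))).filter (fun S => S.card = k),
    (∏ i ∈ S, p i) * ∏ i ∈ Sᶜ, (1 - p i)

/-- Renyi entropy of order `q` (Shannon entropy at `q = 1`) of the Bernoulli sum. -/
noncomputable def renyi (q : ℝ) {m : ℕ} (p : Fin m → ℝ) : ℝ :=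
  if q = 1 then -∑ k ∈ Finset.range (m + 1), mass p k * Real.log (mass p k)
  else 1 / (1 - q) * Real.log (∑ k ∈ Finset.range (m + 1), (mass p k) ^ q)

/-- The entropy along the affine path from `p0` to `p1`. -/
noncomputable def phi (q : ℝ) {m : ℕ} (p0 p1 : Fin m → ℝ) (t : ℝ) : ℝ :=
  renyi q (fun i => (1 - t) * p0 i + t * p1 i)

/-- Property (i) for the value `c`. -/
def CondI (c : ℝ) : Prop :=
  ∀ q : ℝ, 0 < q → q ≤ c → ∀ m : ℕ, 1 ≤ m → ∀ p0 p1 : Fin m → ℝ,
    (∀ i, p0 i ∈ Set.Icc (0 : ℝ) 1) → (∀ i, p1 i ∈ Set.Icc (0 : ℝ) 1) →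
      ConcaveOn ℝ (Set.Icc (0 : ℝ) 1) (phi q p0 p1)

/-- Property (ii) for the value `c`. -/
def CondII (c : ℝ) : Prop :=
  ∀ q : ℝ, c < q → ∃ m : ℕ, 1 ≤ m ∧ ∃ p0 p1 : Fin m → ℝ,
    (∀ i, p0 i ∈ Set.Icc (0 : ℝ) 1) ∧ (∀ i, p1 i ∈ Set.Icc (0 : ℝ) 1) ∧
      ConvexOn ℝ (Set.Icc (0 : ℝ) 1) (phi q p0 p1) ∧
      ¬ ∃ a b : ℝ, ∀ t ∈ Set.Icc (0 : ℝ) 1, phi q p0 p1 t = a + b * t

theorem local_conc (G : ℝ → ℝ) (u0 : ℝ) (hG : ContDiffAt ℝ 2 G u0) (hp : 0 < deriv G u0) :
    ∃ ε > 0, ∀ δ, 0 < δ → δ ≤ ε →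
      StrictConcaveOn ℝ (Set.Icc (-δ) δ) (fun τ => G (u0 - τ ^ 2)) := by
  set h : ℝ → ℝ := fun τ => G (u0 - τ ^ 2) with hh
  have hin : ContDiff ℝ 2 (fun τ : ℝ => u0 - τ ^ 2) := by fun_prop
  have hG0 : ContDiffAt ℝ 2 G ((fun τ : ℝ => u0 - τ ^ 2) 0) := by simpa using hG
  have hc : ContDiffAt ℝ 2 h 0 := ContDiffAt.comp 0 hG0 hin.contDiffAt
  have hcont : ContinuousAt (fun τ : ℝ => u0 - τ ^ 2) 0 := hin.continuous.continuousAt
  have hGe : ∀ᶠ u in nhds u0, ContDiffAt ℝ 2 G u := hG.eventually (by simp)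
  have hGe' : ∀ᶠ τ in nhds (0 : ℝ), ContDiffAt ℝ 2 G (u0 - τ ^ 2) := by
    have : Filter.Tendsto (fun τ : ℝ => u0 - τ ^ 2) (nhds 0) (nhds u0) := by
      have := hcont.tendsto
      simpa using this
    exact this.eventually hGe
  have hd : deriv h =ᶠ[nhds 0] fun τ => (-2 * τ) * deriv G (u0 - τ ^ 2) := by
    filter_upwards [hGe'] with τ hτ
    have h1 : HasDerivAt G (deriv G (u0 - τ ^ 2)) (u0 - τ ^ 2) :=
      (hτ.differentiableAt (by simp)).hasDerivAt
    have h2 : HasDerivAt (fun τ : ℝ => u0 - τ ^ 2) (-2 * τ) τ := by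
      have := (hasDerivAt_pow 2 τ).const_sub u0
      refine this.congr_deriv ?_
      norm_num
    have h3 := HasDerivAt.comp τ h1 h2
    have h4 : HasDerivAt h (deriv G (u0 - τ ^ 2) * (-2 * τ)) τ := h3
    rw [h4.deriv]; ring
  have hG1 : ContDiffAt ℝ 1 (deriv G) u0 := hG.derivWithin (m := 1) (by norm_num) |> fun h => by
    simpa using h
  have hK : DifferentiableAt ℝ (fun τ : ℝ => deriv G (u0 - τ ^ 2)) 0 := by
    have a1 : DifferentiableAt ℝ (deriv G) ((fun τ : ℝ => u0 - τ ^ 2) 0) := by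
      simpa using hG1.differentiableAt (by simp)
    have a2 : DifferentiableAt ℝ (fun τ : ℝ => u0 - τ ^ 2) 0 := by fun_prop
    exact DifferentiableAt.comp (0 : ℝ) a1 a2
  have hd2 : deriv (deriv h) 0 = -2 * deriv G u0 := by
    rw [hd.deriv_eq]
    have b1 : HasDerivAt (fun τ : ℝ => -2 * τ) (-2) 0 := by
      simpa using (hasDerivAt_id (0 : ℝ)).const_mul (-2)
    have b2 := b1.mul hK.hasDerivAt
    have b3 : HasDerivAt (fun τ : ℝ => (-2 * τ) * deriv G (u0 - τ ^ 2)) (-2 * deriv G u0) 0 := by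
      refine HasDerivAt.congr_deriv b2 ?_
      norm_num
    exact b3.deriv
  have hc1 : ContDiffAt ℝ 1 (deriv h) 0 := hc.derivWithin (m := 1) (by norm_num) |> fun h => by
    simpa using h
  have hc0 : ContDiffAt ℝ 0 (deriv (deriv h)) 0 :=
    hc1.derivWithin (m := 0) (by norm_num) |> fun h => by simpa using h
  have hneg : ∀ᶠ τ in nhds (0 : ℝ), deriv (deriv h) τ < 0 := by
    apply hc0.continuousAt.eventually_lt continuousAt_const
    rw [hd2]; linarith
  have hce : ∀ᶠ τ in nhds (0 : ℝ), ContDiffAt ℝ 2 h τ := hc.eventually (by simp)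
  obtain ⟨η, hη, hb⟩ := Metric.eventually_nhds_iff.1 (hneg.and hce)
  refine ⟨η / 2, by positivity, fun δ hδ hδ' => ?_⟩
  have hmem : ∀ τ ∈ Set.Icc (-δ) δ, dist τ 0 < η := by
    intro τ hτ
    rw [Real.dist_eq, sub_zero, abs_lt]
    constructor <;> linarith [hτ.1, hτ.2]
  apply strictConcaveOn_of_deriv2_neg (convex_Icc _ _)
  · intro τ hτ
    exact (hb (hmem τ hτ)).2.continuousAt.continuousWithinAt
  · intro τ hτ
    exact (hb (hmem τ (interior_subset hτ))).1

theorem mass2 (a b : ℝ) : mass ![a, b] 0 = (1 - a) * (1 - b) ∧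
    mass ![a, b] 1 = a * (1 - b) + b * (1 - a) ∧ mass ![a, b] 2 = a * b := by
  have hu : (Finset.univ : Finset (Finset (Fin 2))) = {∅, {0}, {1}, {0, 1}} := by decide
  have c0 : (({0} : Finset (Fin 2))ᶜ) = {1} := by decide
  have c1 : (({1} : Finset (Fin 2))ᶜ) = {0} := by decide
  have c2 : (({0, 1} : Finset (Fin 2))ᶜ) = ∅ := by decide
  have f0 : (Finset.univ : Finset (Finset (Fin 2))).filter (fun S => S.card = 0) = {∅} := by decide
  have f1 : (Finset.univ : Finset (Finset (Fin 2))).filter (fun S => S.card = 1) = {{0}, {1}} := by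
    decide
  have f2 : (Finset.univ : Finset (Finset (Fin 2))).filter (fun S => S.card = 2) = {{0, 1}} := by
    decide
  refine ⟨?_, ?_, ?_⟩
  · rw [mass, f0, Finset.sum_singleton]; simp [Fin.prod_univ_two]
  · rw [mass, f1, Finset.sum_pair (by decide), c0, c1]; simp
  · rw [mass, f2, Finset.sum_singleton, c2, Finset.prod_pair (by decide)]; simp

theorem strict (q : ℝ) (hq : 1 < q) : ∃ p0 p1 : Fin 2 → ℝ,
    (∀ i, p0 i ∈ Set.Icc (0 : ℝ) 1) ∧ (∀ i, p1 i ∈ Set.Icc (0 : ℝ) 1) ∧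
      StrictConvexOn ℝ (Set.Icc (0 : ℝ) 1) (phi q p0 p1) := by
  have hq1 : 0 < q - 1 := by linarith
  set R : ℝ := (3 : ℝ) ^ (1 / (q - 1)) with hR
  have hR1 : 1 ≤ R := Real.one_le_rpow (by norm_num) (by positivity)
  have hRq : R ^ (q - 1) = 3 := by
    rw [hR, ← Real.rpow_mul (by norm_num), one_div, inv_mul_cancel₀ hq1.ne', Real.rpow_one]
  set w : ℝ := 1 / (2 * R + 1) with hw
  have hw0 : 0 < w := by positivity
  have hw1 : w ≤ 1 / 3 := by
    rw [hw]; apply one_div_le_one_div_of_le <;> linarith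
  have hwR : 1 - w = R * (2 * w) := by
    rw [hw]; field_simp; ring
  set F : ℝ → ℝ := fun u => (1 - 2 * w + u) ^ q + (2 * w - 2 * u) ^ q + u ^ q with hF
  have p1 : 0 < 1 - 2 * w + w ^ 2 := by nlinarith
  have p2 : 0 < 2 * w - 2 * w ^ 2 := by nlinarith
  have p3 : 0 < w ^ 2 := by positivity
  have hFpos : 0 < F (w ^ 2) := by
    simp only [hF]; positivity
  have hFc : ContDiffAt ℝ 2 F (w ^ 2) := by
    apply ContDiffAt.add
    · apply ContDiffAt.add
      · exact ContDiffAt.rpow_const_of_ne (by fun_prop) p1.ne'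
      · exact ContDiffAt.rpow_const_of_ne (by fun_prop) p2.ne'
    · exact ContDiffAt.rpow_const_of_ne (by fun_prop) p3.ne'
  have hFd : HasDerivAt F (q * ((1 - 2 * w + w ^ 2) ^ (q - 1) - 2 * (2 * w - 2 * w ^ 2) ^ (q - 1)
      + (w ^ 2) ^ (q - 1))) (w ^ 2) := by
    have d1 : HasDerivAt (fun u : ℝ => 1 - 2 * w + u) 1 (w ^ 2) :=
      (hasDerivAt_id _).const_add _
    have d2 : HasDerivAt (fun u : ℝ => 2 * w - 2 * u) (-2) (w ^ 2) := by
      simpa using ((hasDerivAt_id (w ^ 2)).const_mul 2).const_sub (2 * w)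
    have d3 : HasDerivAt (fun u : ℝ => u) 1 (w ^ 2) := hasDerivAt_id _
    have e := ((d1.rpow_const (p := q) (Or.inl p1.ne')).add
      (d2.rpow_const (p := q) (Or.inl p2.ne'))).add (d3.rpow_const (p := q) (Or.inl p3.ne'))
    refine HasDerivAt.congr_deriv e ?_
    ring
  have hkey : 0 < (1 - 2 * w + w ^ 2) ^ (q - 1) - 2 * (2 * w - 2 * w ^ 2) ^ (q - 1)
      + (w ^ 2) ^ (q - 1) := by
    have e1 : 1 - 2 * w + w ^ 2 = R * (2 * w - 2 * w ^ 2) := by
      have : 1 - 2 * w + w ^ 2 = (1 - w) * (1 - w) := by ring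
      rw [this]
      nth_rewrite 1 [hwR]
      ring
    rw [e1, Real.mul_rpow (by linarith) p2.le, hRq]
    have := Real.rpow_pos_of_pos p2 (q - 1)
    have := Real.rpow_pos_of_pos p3 (q - 1)
    linarith
  have hGc : ContDiffAt ℝ 2 (fun u => Real.log (F u)) (w ^ 2) := hFc.log hFpos.ne'
  have hGd : 0 < deriv (fun u => Real.log (F u)) (w ^ 2) := by
    rw [(hFd.log hFpos.ne').deriv]
    have : 0 < q := by linarith
    positivity
  obtain ⟨ε, hε, hS⟩ := local_conc _ _ hGc hGd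
  set δ := min ε w with hδ
  have hδ0 : 0 < δ := lt_min hε hw0
  have hδw : δ ≤ w := min_le_right _ _
  have hS' := hS δ hδ0 (min_le_left _ _)
  refine ⟨![w - δ, w + δ], ![w + δ, w - δ], ?_, ?_, ?_⟩
  · intro i
    fin_cases i <;> simp <;> constructor <;> linarith
  · intro i
    fin_cases i <;> simp <;> constructor <;> linarith
  · have hphi : ∀ t, phi q ![w - δ, w + δ] ![w + δ, w - δ] t
        = -(1 / (q - 1)) * Real.log (F (w ^ 2 - (-δ + 2 * δ * t) ^ 2)) := by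
      intro t
      have e : (fun i => (1 - t) * (![w - δ, w + δ] : Fin 2 → ℝ) i
          + t * (![w + δ, w - δ] : Fin 2 → ℝ) i)
          = ![w + (-δ + 2 * δ * t), w - (-δ + 2 * δ * t)] := by
        funext i
        fin_cases i <;> simp <;> ring
      obtain ⟨m0, m1, m2⟩ := mass2 (w + (-δ + 2 * δ * t)) (w - (-δ + 2 * δ * t))
      rw [phi, e, renyi, if_neg hq.ne']
      simp only [Finset.sum_range_succ, Finset.sum_range_zero, zero_add, m0, m1, m2, hF]
      congr 1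
      · have : 1 - q ≠ 0 := by linarith
        field_simp
        ring
      · congr 1
        congr 1
        · congr 1
          · congr 1; ring
          · congr 1; ring
        · congr 1; ring
    refine ⟨convex_Icc _ _, ?_⟩
    intro x hx y hy hxy a b ha hb hab
    have hx' : -δ + 2 * δ * x ∈ Set.Icc (-δ) δ := by
      constructor <;> nlinarith [hx.1, hx.2]
    have hy' : -δ + 2 * δ * y ∈ Set.Icc (-δ) δ := by
      constructor <;> nlinarith [hy.1, hy.2]
    have hne : -δ + 2 * δ * x ≠ -δ + 2 * δ * y := by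
      intro h
      apply hxy
      have : δ * (x - y) = 0 := by linarith
      rcases mul_eq_zero.1 this with h | h
      · linarith
      · linarith
    have := hS'.2 hx' hy' hne ha hb hab
    simp only [smul_eq_mul] at this ⊢
    rw [hphi, hphi, hphi]
    have e : a * (-δ + 2 * δ * x) + b * (-δ + 2 * δ * y) = -δ + 2 * δ * (a * x + b * y) := by
      have : b = 1 - a := by linarith
      subst this; ring
    rw [e] at this
    have hpos : 0 < 1 / (q - 1) := by positivity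
    nlinarith

theorem result :
    ∀ q : ℝ, 1 < q → ∃ p0 p1 : Fin 2 → ℝ,
      (∀ i, p0 i ∈ Set.Icc (0 : ℝ) 1) ∧ (∀ i, p1 i ∈ Set.Icc (0 : ℝ) 1) ∧
        StrictConvexOn ℝ (Set.Icc (0 : ℝ) 1) (phi q p0 p1) := strict

end Pool.Agent.Results.MP_737f38_pr.NotTwo
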